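import Pool.Agent.H45.SE.TarT

/-! # TFa: secured facts are preserved by isomorphisms, one direction -/

set_option linter.unusedVariables false

open Ordinal Order Set
open scoped ZFSet

namespace SE

open SF

theorem TFa (hBC : T_BC) (hBD : T_BD) (hBR : T_BR) (hSA : T_SA) (hTX : T_TX) (hTBb : T_TBb)
    (hTCa : T_TCa) (hTCb : T_TCb) (hTCc : T_TCc) (hTEc : T_TEc) : T_TFa := by
  intro D hD π ρ ρ' p hI hA G hG hp a x hS ρ1' G1' hE hR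
  obtain ⟨hImim, hinv⟩ : im π ρ = ρ' ∧ mv π p ∈ Pos D.L ρ' := by
    have h := hTBb D.L π ρ ρ' p hI.c hI.c' hI.i
    exact ⟨h.2.2.1, h.2.2.2.1⟩
  obtain ⟨hIinv, hca⟩ := hTCa D hD π ρ ρ' p hI
  obtain ⟨hG', hpG', -, hW, hback⟩ := hca G hG hp
  -- the condition `p1`
  have hFF : FF (mv π p) ∧ dm (mv π p) ⊆ ρ' := by
    have h := (hBC.2.2.2.1 D.L ρ' (mv π p)).1 hinv
    exact ⟨h.1, h.2.1⟩
  have hp1 : mv π p ∈ D.P ρ1' := hBD.2.1 D.L ρ' ρ1' _ hinv (fun _ h => hE.sub (hFF.2 h))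
  have hrst : rst ρ' (mv π p) = mv π p := (hBC.2.2.2.2.1 ρ' _ hFF.1).2.2.2 hFF.2
  have hle : Le (mv π p) (mv π p) := (hBD.2.2.2.1 D.L ρ' _ hinv).1
  have hbr := (hBR D hD).2.2.2.2.2.2.2.2.2
  have h0 : (∅ : V) ∈ D.H := by
    have h := hbr 0
    have e : nS 0 = (∅ : V) := by simp [nS]
    rwa [e] at h
  have hC : D.Cpd ρ (inv π) ρ' ρ (mv π p) ρ1' (mv π p) ∅ :=
    { i := hIinv
      h := hE.st.h
      c := hE.st.c
      sub := hE.sub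
      p := hp1
      le := by rw [hrst]; exact hle
      gH := hI.h
      fre := hTX.1 ρ
      fl := h0 }
  obtain ⟨hI1, hsub, hagr, -⟩ := hTEc D hD _ _ _ _ _ _ _ _ hC _ _ rfl rfl
  generalize cpm D.L ρ (inv π) ρ' (mv π p) ∅ ρ1' = π1 at hI1 hagr
  generalize cpi D.L ρ (inv π) ρ' (mv π p) ∅ ρ1' = ρ1 at hI1 hsub
  have hp1G : mv π p ∈ G1' := by
    have h : mv π p ∈ gs G1' ρ' := by rw [hE.res]; exact hpG'
    exact (ZFSet.mem_sep.1 h).1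
  obtain ⟨-, hca1⟩ := hTCa D hD π1 ρ1' ρ1 (mv π p) hI1
  obtain ⟨hG1, -, -, hW1, -⟩ := hca1 G1' hE.st.g hp1G
  obtain ⟨-, -, hcc⟩ := hTCc D hD (inv π) ρ' ρ (mv π p) π1 ρ1' ρ1 (mv π p) hIinv hI1 hE.sub hagr
    (by rw [hrst]; exact hle)
  have hres : gs (gp D.L π1 (mv π p) ρ1 G1') ρ = G := by
    rw [(hcc G1' hE.st.g hp1G).2, hE.res, hback]
  have hE1 : D.Ex ρ G ρ1 (gp D.L π1 (mv π p) ρ1 G1') :=
    { st := { h := hI1.h', c := hI1.c', g := hG1 }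
      sub := hsub
      res := hres }
  have hSt : D.St ρ G := { h := hI.h, c := hI.c, g := hG }
  have hSt' : D.St ρ' (gp D.L π p ρ' G) := { h := hI.h', c := hI.c', g := hG' }
  have hTr : Tr ρ := fun i hi => (hI.c i hi).2
  have hTr' : Tr ρ' := fun i hi => (hI.c' i hi).2
  have key : ∀ y, Pro ρ (gp D.L π1 (mv π p) ρ1 G1') y ↔ Pro ρ' G1' y := by
    intro y
    have s1 := ((hSA D hD ρ G hSt).2.2.2.2 ρ1 _ hE1).2.2.2.2.2.2.1 ρ (fun _ h => h) hTr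
    have s2 := ((hSA D hD ρ' _ hSt').2.2.2.2 ρ1' _ hE).2.2.2.2.2.2.1 ρ' (fun _ h => h) hTr'
    have s3 := (hTCb D hD π ρ ρ' p hI G hG hp).2.1 hA ρ (fun _ h => h) y
    rw [hImim] at s3
    rw [s1.2 y, ← s3, ← s2.2 y]
  have hR1 : Resp ρ ρ1 (gp D.L π1 (mv π p) ρ1 G1') := by
    intro i hi
    obtain ⟨i', hi', rfl⟩ := hI1.i.onto i hi
    have e := ((hTCb D hD π1 ρ1' ρ1 (mv π p) hI1 G1' hE.st.g hp1G).1 i' hi').2.1
    rw [e, key]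
    exact hR i' hi'
  have hP := hS ρ1 _ hE1 hR1
  have hWW : D.W (gp D.L π1 (mv π p) ρ1 G1') = D.W G1' := by
    funext y
    exact propext (hW1 y)
  rwa [hWW] at hP

end SE
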